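import Mathlib

/-!
Project EV (helper285): almost all monotone Boolean functions which are invariant under a
transitive group of permutations of the variables are evasive.
Definitions and the statements of the parts.
-/

set_option autoImplicit false

namespace Pool.Agent.W285.EV

/-- points of the cube -/
abbrev Cube (n : ℕ) : Type := Fin n → Bool

/-- `g` is computed by a decision tree of depth at most `k` -/
inductive Dec {n : ℕ} : ℕ → (Cube n → Bool) → Prop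
  | const (m : ℕ) (g : Cube n → Bool) (h : ∀ x y, g x = g y) : Dec m g
  | query (m : ℕ) (g : Cube n → Bool) (i : Fin n)
      (h0 : Dec m (fun x => g (Function.update x i false)))
      (h1 : Dec m (fun x => g (Function.update x i true))) : Dec (m + 1) g

/-- `n` queries are needed -/
def Evasive {n : ℕ} (f : Cube n → Bool) : Prop := ∀ k, Dec k f → n ≤ k

/-- the monotone functions invariant under the group `Γ` -/
def Inv {n : ℕ} (Γ : Subgroup (Equiv.Perm (Fin n))) : Set (Cube n → Bool) :=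
  {f | Monotone f ∧ ∀ σ ∈ Γ, ∀ x : Cube n, f (x ∘ σ) = f x}

/-- the subcube given by a partial assignment -/
def sub {n : ℕ} (p : Fin n → Option Bool) : Finset (Cube n) :=
  Finset.univ.filter (fun x => ∀ i b, p i = some b → x i = b)

/-- number of fixed variables -/
def codim {n : ℕ} (p : Fin n → Option Bool) : ℕ :=
  (Finset.univ.filter (fun i => p i ≠ none)).card

/-- number of ones -/
def wt {n : ℕ} (x : Cube n) : ℕ := (Finset.univ.filter (fun i => x i = true)).card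

/-- alternating sum of `f` over a subcube -/
def alt {n : ℕ} (f : Cube n → Bool) (p : Fin n → Option Bool) : ℤ :=
  ∑ x ∈ sub p, if f x = true then (-1) ^ (wt x) else 0

/-- COVER: a non evasive function has vanishing alternating sums on a cover by subcubes of
codimension `r` -/
def S_COVER : Prop :=
  ∀ (n r : ℕ), r + 1 ≤ n → ∀ f : Cube n → Bool, ¬ Evasive f →
    ∃ 𝒬 : Finset (Fin n → Option Bool), 𝒬.card ≤ 2 ^ r ∧
      (∀ p ∈ 𝒬, codim p = r ∧ alt f p = 0) ∧ ∀ x : Cube n, ∃ p ∈ 𝒬, x ∈ sub p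

/-- CUB: sizes -/
def S_CUB : Prop :=
  (∀ (n : ℕ) (p : Fin n → Option Bool), (sub p).card = 2 ^ (n - codim p)) ∧
  ∀ n r : ℕ, (Finset.univ.filter (fun p : Fin n → Option Bool => codim p = r)).card ≤
    (2 * n) ^ r

/-- ANTI: the Littlewood–Offord bound with positive weights -/
def S_ANTI : Prop :=
  ∀ (α : Type) [DecidableEq α] (F : Finset α) (w : α → ℕ), (∀ a ∈ F, 0 < w a) → ∀ c : ℤ,
    (F.powerset.filter (fun S => ∑ a ∈ S, (w a : ℤ) = c)).card ^ 2 * (F.card + 1) ≤ 4 ^ F.card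

/-- ABS: many equations at once -/
def S_ABS : Prop :=
  ∀ (α β : Type) [DecidableEq α] [DecidableEq β] (𝒞 : Finset β) (w : α → β → ℕ)
    (𝒦 : Set (Finset β)) (L R t : ℕ), 0 < R → 0 < t → (∀ 𝒬 ∈ 𝒦, 𝒬 ⊆ 𝒞 ∧ 𝒬.card ≤ R) →
    ∀ (ρ : ℕ) (F : Finset α), (∀ Q ∈ 𝒞, (F.filter (fun O => w O Q ≠ 0)).card ≤ L) →
    (∀ 𝒬 ∈ 𝒦, ∀ O ∈ F, ∃ Q ∈ 𝒬, w O Q ≠ 0) → ρ * L + R * t ≤ F.card → ∀ c : β → ℤ,
    (({S | S ⊆ F ∧ ∃ 𝒬 ∈ 𝒦, ∀ Q ∈ 𝒬, ∑ O ∈ S, (w O Q : ℤ) = c Q} :
      Set (Finset α)).ncard : ℝ) ≤ ((𝒞.card : ℝ) / √((t : ℝ) + 1)) ^ ρ * 2 ^ F.card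

/-- the free elements of level `k` -/
def free {P : Type} [PartialOrder P] (lev : P → ℕ) (k : ℕ) (U : Set P) : Set P :=
  {O | lev O = k ∧ (∀ O', O < O' → O' ∈ U) ∧ ∀ O', O' < O → O' ∉ U}

/-- the elements which are forced when `U` is known off level `k` -/
def base {P : Type} [PartialOrder P] (lev : P → ℕ) (k : ℕ) (U : Set P) : Set P :=
  {O | (lev O ≠ k ∧ O ∈ U) ∨ (lev O = k ∧ ∃ O', O' < O ∧ O' ∈ U)}

/-- the upper sets which agree with `U` off level `k` -/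
theorem class_iff {P : Type} [PartialOrder P] {lev : P → ℕ} (hlev : StrictMono lev) (k : ℕ)
    {U : Set P} (hU : IsUpperSet U) (V : Set P) :
    (IsUpperSet V ∧ ∀ O, lev O ≠ k → (O ∈ V ↔ O ∈ U)) ↔
      ∃ S, S ⊆ free lev k U ∧ V = base lev k U ∪ S := by
  constructor
  · rintro ⟨hV, h⟩
    refine ⟨V ∩ free lev k U, Set.inter_subset_right, ?_⟩
    ext O
    constructor
    · intro hO
      by_cases hk : lev O = k
      · by_cases h1 : ∃ O', O' < O ∧ O' ∈ U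
        · exact Or.inl (Or.inr ⟨hk, h1⟩)
        · right
          refine ⟨hO, hk, fun O' hO' => ?_, fun O' h2 h3 => h1 ⟨O', h2, h3⟩⟩
          exact (h O' (by have := hlev hO'; omega)).1 (hV hO'.le hO)
      · exact Or.inl (Or.inl ⟨hk, (h O hk).1 hO⟩)
    · rintro ((⟨h1, h2⟩ | ⟨h1, O', h2, h3⟩) | ⟨h1, -⟩)
      · exact (h O h1).2 h2
      · exact hV h2.le ((h O' (by have := hlev h2; omega)).2 h3)
      · exact h1
  · rintro ⟨S, hS, rfl⟩
    refine ⟨?_, ?_⟩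
    · intro O O' hle hO
      rcases eq_or_lt_of_le hle with rfl | hlt
      · exact hO
      by_cases hk : lev O' = k
      · left
        right
        refine ⟨hk, O, hlt, ?_⟩
        have hk' : lev O ≠ k := by have := hlev hlt; omega
        rcases hO with (⟨-, h2⟩ | ⟨h1, -⟩) | h1
        · exact h2
        · exact absurd h1 hk'
        · exact absurd (hS h1).1 hk'
      · left
        left
        refine ⟨hk, ?_⟩
        rcases hO with (⟨-, h2⟩ | ⟨h1, O'', h2, h3⟩) | h1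
        · exact hU hle h2
        · exact hU (h2.trans hlt).le h3
        · exact (hS h1).2.1 O' hlt
    · intro O hk
      constructor
      · rintro ((⟨-, h2⟩ | ⟨h1, -⟩) | h1)
        · exact h2
        · exact absurd h1 hk
        · exact absurd (hS h1).1 hk
      · intro h
        exact Or.inl (Or.inl ⟨hk, h⟩)

theorem base_disjoint_free {P : Type} [PartialOrder P] (lev : P → ℕ) (k : ℕ) (U : Set P) :
    Disjoint (base lev k U) (free lev k U) := by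
  rw [Set.disjoint_left]
  rintro O (⟨h1, -⟩ | ⟨-, O', h1, h2⟩) ⟨h3, -, h4⟩
  · exact h1 h3
  · exact h4 O' h1 h2

/-- CLS: from the classes of upper sets agreeing off one level to all upper sets -/
def S_CLS : Prop :=
  ∀ (P : Type) [Fintype P] [PartialOrder P] (m : ℕ) (lev : P → ℕ), StrictMono lev →
    (∀ O, lev O < m) → ∀ (Bad : Set (Set P)) (ε : ℝ), 0 ≤ ε → ∀ K : ℕ,
    (∀ k < m, ∀ U : Set P, IsUpperSet U → K ≤ (free lev k U).ncard →
      (({V | IsUpperSet V ∧ V ∈ Bad ∧ ∀ O, lev O ≠ k → (O ∈ V ↔ O ∈ U)} :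
        Set (Set P)).ncard : ℝ) ≤ ε * 2 ^ (free lev k U).ncard) →
    (({V | IsUpperSet V ∧ V ∈ Bad} : Set (Set P)).ncard : ℝ) ≤
      m * ε * (({V | IsUpperSet V} : Set (Set P)).ncard : ℝ) +
        ((Fintype.card P : ℝ) + 1) ^ (m * K)

/-- ORB: the ordered set of orbits -/
def S_ORB : Prop :=
  ∀ (n : ℕ) (Γ : Subgroup (Equiv.Perm (Fin n))),
    ∃ (P : Type) (_ : Fintype P) (_ : PartialOrder P) (π : Cube n → P) (lev : P → ℕ),
      Function.Surjective π ∧ (∀ x y, π x = π y ↔ ∃ σ ∈ Γ, y = x ∘ σ) ∧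
      (∀ x, lev (π x) = wt x) ∧ StrictMono lev ∧ (∀ x y, x ≤ y → π x ≤ π y) ∧
      ∀ x O, π x ≤ O → ∃ y, x ≤ y ∧ π y = O

/-- GRP: the bound for one group -/
def S_GRP : Prop :=
  ∀ (n : ℕ) (Γ : Subgroup (Equiv.Perm (Fin n))) (r ρ t K : ℕ), r + 1 ≤ n → 0 < t →
    ρ * 2 ^ (n - r) + 2 ^ r * t ≤ K →
    (({f | f ∈ Inv Γ ∧ ¬ Evasive f} : Set (Cube n → Bool)).ncard : ℝ) ≤
      ((n : ℝ) + 1) * ((2 * (n : ℝ)) ^ r / √((t : ℝ) + 1)) ^ ρ * ((Inv Γ).ncard : ℝ) +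
        ((2 : ℝ) ^ n + 1) ^ ((n + 1) * K)

/-- LOW: there are many invariant monotone functions -/
def S_LOW : Prop :=
  ∀ (n : ℕ) (Γ : Subgroup (Equiv.Perm (Fin n))) (b : ℕ),
    b * ((n + 1) * Nat.card Γ) ≤ 2 ^ n → 2 ^ b ≤ (Inv Γ).ncard

/-- SUBG: number of subgroups -/
def S_SUBG : Prop :=
  ∀ (G : Type) [Group G] [Finite G],
    Nat.card (Subgroup G) ≤ Nat.card G ^ Nat.log 2 (Nat.card G)

/-- ASY: the final inequality -/
def S_ASY : Prop :=
  ∃ n₀ : ℕ, ∀ n : ℕ, n₀ ≤ n → ∃ r ρ t K b : ℕ, r + 1 ≤ n ∧ 0 < t ∧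
    ρ * 2 ^ (n - r) + 2 ^ r * t ≤ K ∧ b * ((n + 1) * n ^ 3) ≤ 2 ^ n ∧
    ∀ T : ℝ, 2 ^ b ≤ T →
      ((n.factorial : ℝ) ^ Nat.log 2 n.factorial) *
        (((n : ℝ) + 1) * ((2 * (n : ℝ)) ^ r / √((t : ℝ) + 1)) ^ ρ * T +
          ((2 : ℝ) ^ n + 1) ^ ((n + 1) * K)) ≤ (T - 2) / 2 ^ (2 ^ (Nat.sqrt n / 2))

end Pool.Agent.W285.EV
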